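import Mathlib

/-!
Shifting: for a family without `d + 1` disjoint members there is a stable one of the same size.
-/

namespace Pool.Agent.Lib.MP_455133_co.EM

open Finset

/-- pairwise disjoint members -/
def PD {V : Type*} (M : Finset (Finset V)) : Prop :=
  ∀ e ∈ M, ∀ e' ∈ M, e ≠ e' → Disjoint e e'

/-- no `d + 1` pairwise disjoint members -/
def NoM {V : Type*} (d : ℕ) (H : Finset (Finset V)) : Prop :=
  ∀ M ⊆ H, PD M → M.card ≤ d

theorem NoM_mono {V : Type*} {d : ℕ} {H H' : Finset (Finset V)} (h : H' ⊆ H) (hH : NoM d H) :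
    NoM d H' := fun M hM hPD => hH M (hM.trans h) hPD

/-- stable families on the points `≥ a` -/
def Stb (a : ℕ) (H : Finset (Finset ℕ)) : Prop :=
  ∀ F ∈ H, ∀ j ∈ F, ∀ i, a ≤ i → i < j → i ∉ F → insert i (F.erase j) ∈ H

/-- the shift of a single set -/
def shf (H : Finset (Finset ℕ)) (i j : ℕ) (F : Finset ℕ) : Finset ℕ :=
  if j ∈ F ∧ i ∉ F ∧ insert i (F.erase j) ∉ H then insert i (F.erase j) else F

theorem shf_moved {H : Finset (Finset ℕ)} {i j : ℕ} {F : Finset ℕ}
    (h : j ∈ F ∧ i ∉ F ∧ insert i (F.erase j) ∉ H) : shf H i j F = insert i (F.erase j) :=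
  if_pos h

theorem shf_stay {H : Finset (Finset ℕ)} {i j : ℕ} {F : Finset ℕ}
    (h : ¬ (j ∈ F ∧ i ∉ F ∧ insert i (F.erase j) ∉ H)) : shf H i j F = F :=
  if_neg h

theorem unshift {i j : ℕ} {F : Finset ℕ} (hj : j ∈ F) (hi : i ∉ F) :
    insert j ((insert i (F.erase j)).erase i) = F := by
  rw [erase_insert (fun h => hi (mem_of_mem_erase h)), insert_erase hj]

theorem shf_inj {H : Finset (Finset ℕ)} {i j : ℕ} (_hij : i ≠ j) {F F' : Finset ℕ} (hF : F ∈ H)
    (hF' : F' ∈ H) (h : shf H i j F = shf H i j F') : F = F' := by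
  by_cases h1 : j ∈ F ∧ i ∉ F ∧ insert i (F.erase j) ∉ H
  · rw [shf_moved h1] at h
    by_cases h2 : j ∈ F' ∧ i ∉ F' ∧ insert i (F'.erase j) ∉ H
    · rw [shf_moved h2] at h
      rw [← unshift h1.1 h1.2.1, h, unshift h2.1 h2.2.1]
    · rw [shf_stay h2] at h
      exact absurd (h ▸ hF') h1.2.2
  · rw [shf_stay h1] at h
    by_cases h2 : j ∈ F' ∧ i ∉ F' ∧ insert i (F'.erase j) ∉ H
    · rw [shf_moved h2] at h
      exact absurd (h ▸ hF) h2.2.2
    · rw [shf_stay h2] at h
      exact h

/-- the shifted family -/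
def shH (H : Finset (Finset ℕ)) (i j : ℕ) : Finset (Finset ℕ) := H.image (shf H i j)

theorem card_shH {H : Finset (Finset ℕ)} {i j : ℕ} (hij : i ≠ j) : (shH H i j).card = H.card := by
  rw [shH, card_image_of_injOn]
  intro F hF F' hF' h
  exact shf_inj hij (mem_coe.mp hF) (mem_coe.mp hF') h

/-- the members of the shifted family -/
theorem mem_shH {H : Finset (Finset ℕ)} {i j : ℕ} (hij : i ≠ j) {E : Finset ℕ}
    (h : E ∈ shH H i j) : (E ∈ H ∧ (j ∈ E → i ∉ E → insert i (E.erase j) ∈ H)) ∨
      (E ∉ H ∧ i ∈ E ∧ j ∉ E ∧ insert j (E.erase i) ∈ H) := by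
  rw [shH, mem_image] at h
  obtain ⟨F, hF, rfl⟩ := h
  by_cases h1 : j ∈ F ∧ i ∉ F ∧ insert i (F.erase j) ∉ H
  · rw [shf_moved h1]
    right
    refine ⟨h1.2.2, mem_insert_self _ _, ?_, ?_⟩
    · rw [mem_insert]
      rintro (h | h)
      · exact hij h.symm
      · exact absurd rfl (ne_of_mem_erase h)
    · rw [unshift h1.1 h1.2.1]
      exact hF
  · rw [shf_stay h1]
    left
    refine ⟨hF, fun hj hi => ?_⟩
    by_contra h2
    exact h1 ⟨hj, hi, h2⟩

theorem NoM_shH {d : ℕ} {H : Finset (Finset ℕ)} {i j : ℕ} (hij : i ≠ j) (hH : NoM d H) :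
    NoM d (shH H i j) := by
  intro M hM hPD
  by_cases hall : M ⊆ H
  · exact hH M hall hPD
  · rw [not_subset] at hall
    obtain ⟨E, hEM, hEH⟩ := hall
    have hE := mem_shH hij (hM hEM)
    rcases hE with hE | hE
    · exact absurd hE.1 hEH
    obtain ⟨-, hiE, hjE, hE'⟩ := hE
    -- the other members are in `H`
    have hoth : ∀ F ∈ M, F ≠ E → F ∈ H ∧ i ∉ F ∧ (j ∈ F → insert i (F.erase j) ∈ H) := by
      intro F hF hne
      have hiF : i ∉ F := fun h => (disjoint_left.mp (hPD F hF E hEM hne)) h hiE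
      rcases mem_shH hij (hM hF) with h1 | h1
      · exact ⟨h1.1, hiF, fun hj => h1.2 hj hiF⟩
      · exact absurd h1.2.1 hiF
    set E' := insert j (E.erase i) with hE'd
    by_cases hjM : ∃ F ∈ M, F ≠ E ∧ j ∈ F
    · -- exchange with a second member
      obtain ⟨F, hF, hFE, hjF⟩ := hjM
      obtain ⟨hFH, hiF, hF'⟩ := hoth F hF hFE
      have hF'' := hF' hjF
      set F' := insert i (F.erase j) with hF'd
      set M' := insert E' (insert F' ((M.erase E).erase F)) with hM'
      have hFmem : F ∈ M.erase E := mem_erase.mpr ⟨hFE, hF⟩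
      have hdisj : ∀ G ∈ (M.erase E).erase F, G ∈ H ∧ i ∉ G ∧ j ∉ G ∧ Disjoint G E ∧
          Disjoint G F := by
        intro G hG
        rw [mem_erase, mem_erase] at hG
        obtain ⟨hGF, hGE, hGM⟩ := hG
        obtain ⟨h1, h2, -⟩ := hoth G hGM hGE
        have h3 := hPD G hGM F hF hGF
        exact ⟨h1, h2, fun h => (disjoint_left.mp h3) h hjF, hPD G hGM E hEM hGE, h3⟩
      have hEF := hPD E hEM F hF hFE.symm
      have hE'F' : Disjoint E' F' := by
        rw [disjoint_left]
        intro x hx hx'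
        rw [hE'd, mem_insert, mem_erase] at hx
        rw [hF'd, mem_insert, mem_erase] at hx'
        rcases hx with hx | hx <;> rcases hx' with hx' | hx'
        · exact hij (hx'.symm.trans hx)
        · exact hx'.1 hx
        · exact hx.1 hx'
        · exact (disjoint_left.mp hEF) hx.2 hx'.2
      have hGE' : ∀ G ∈ (M.erase E).erase F, Disjoint G E' ∧ Disjoint G F' := by
        intro G hG
        obtain ⟨-, h2, h3, h4, h5⟩ := hdisj G hG
        constructor
        · rw [disjoint_left]
          intro x hx hx'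
          rw [hE'd, mem_insert, mem_erase] at hx'
          rcases hx' with hx' | hx'
          · exact h3 (hx' ▸ hx)
          · exact (disjoint_left.mp h4) hx hx'.2
        · rw [disjoint_left]
          intro x hx hx'
          rw [hF'd, mem_insert, mem_erase] at hx'
          rcases hx' with hx' | hx'
          · exact h2 (hx' ▸ hx)
          · exact (disjoint_left.mp h5) hx hx'.2
      have hM'H : M' ⊆ H := by
        intro G hG
        rw [hM', mem_insert, mem_insert] at hG
        rcases hG with rfl | rfl | hG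
        · exact hE'
        · exact hF''
        · exact (hdisj G hG).1
      have hM'PD : PD M' := by
        intro e he e' he' hne
        rw [hM', mem_insert, mem_insert] at he he'
        rcases he with rfl | rfl | he <;> rcases he' with rfl | rfl | he'
        · exact absurd rfl hne
        · exact hE'F'
        · exact (hGE' _ he').1.symm
        · exact hE'F'.symm
        · exact absurd rfl hne
        · exact (hGE' _ he').2.symm
        · exact (hGE' _ he).1
        · exact (hGE' _ he).2
        · have h1 := mem_of_mem_erase (mem_of_mem_erase he)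
          have h2 := mem_of_mem_erase (mem_of_mem_erase he')
          exact hPD e h1 e' h2 hne
      have hjE'' : j ∈ E' := mem_insert_self _ _
      have hiF'' : i ∈ F' := mem_insert_self _ _
      have h1 : F' ∉ (M.erase E).erase F := fun h => (hdisj F' h).2.1 hiF''
      have h2 : E' ∉ insert F' ((M.erase E).erase F) := by
        rw [mem_insert]
        rintro (h | h)
        · exact (disjoint_left.mp hE'F') hjE'' (h ▸ hjE'')
        · exact (hdisj E' h).2.2.1 hjE''
      have h3 := hH M' hM'H hM'PD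
      rw [hM', card_insert_of_notMem h2, card_insert_of_notMem h1, card_erase_of_mem hFmem,
        card_erase_of_mem hEM] at h3
      have h4 : 0 < (M.erase E).card := card_pos.mpr ⟨F, hFmem⟩
      rw [card_erase_of_mem hEM] at h4
      omega
    · -- only one member changes
      push Not at hjM
      set M' := insert E' (M.erase E) with hM'
      have hdisj : ∀ G ∈ M.erase E, G ∈ H ∧ j ∉ G ∧ Disjoint G E := by
        intro G hG
        rw [mem_erase] at hG
        exact ⟨(hoth G hG.2 hG.1).1, hjM G hG.2 hG.1, hPD G hG.2 E hEM hG.1⟩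
      have hGE' : ∀ G ∈ M.erase E, Disjoint G E' := by
        intro G hG
        obtain ⟨-, h3, h4⟩ := hdisj G hG
        rw [disjoint_left]
        intro x hx hx'
        rw [hE'd, mem_insert, mem_erase] at hx'
        rcases hx' with hx' | hx'
        · exact h3 (hx' ▸ hx)
        · exact (disjoint_left.mp h4) hx hx'.2
      have h2 : E' ∉ M.erase E := fun h => (hdisj E' h).2.1 (mem_insert_self _ _)
      have h3 := hH M' (by
        intro G hG
        rw [hM', mem_insert] at hG
        rcases hG with rfl | hG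
        · exact hE'
        · exact (hdisj G hG).1) (by
        intro e he e' he' hne
        rw [hM', mem_insert] at he he'
        rcases he with rfl | he <;> rcases he' with rfl | he'
        · exact absurd rfl hne
        · exact (hGE' _ he').symm
        · exact hGE' _ he
        · exact hPD e (mem_of_mem_erase he) e' (mem_of_mem_erase he') hne)
      rw [hM', card_insert_of_notMem h2, card_erase_of_mem hEM] at h3
      have h4 : 0 < M.card := card_pos.mpr ⟨E, hEM⟩
      omega

/-- the weight of a family -/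
def wt (H : Finset (Finset ℕ)) : ℕ := ∑ F ∈ H, ∑ x ∈ F, x

theorem wt_shf {H : Finset (Finset ℕ)} {i j : ℕ} {F : Finset ℕ} (hij : i < j) :
    ∑ x ∈ shf H i j F, x ≤ ∑ x ∈ F, x := by
  by_cases h1 : j ∈ F ∧ i ∉ F ∧ insert i (F.erase j) ∉ H
  · rw [shf_moved h1, sum_insert (fun h => h1.2.1 (mem_of_mem_erase h))]
    have := add_sum_erase F (fun x => x) h1.1
    have h2 : ∑ x ∈ F.erase j, x + j = ∑ x ∈ F, x := by rw [← this]; ring
    omega
  · rw [shf_stay h1]

theorem wt_shf_lt {H : Finset (Finset ℕ)} {i j : ℕ} {F : Finset ℕ} (hij : i < j)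
    (h1 : j ∈ F ∧ i ∉ F ∧ insert i (F.erase j) ∉ H) :
    ∑ x ∈ shf H i j F, x < ∑ x ∈ F, x := by
  rw [shf_moved h1, sum_insert (fun h => h1.2.1 (mem_of_mem_erase h))]
  have := add_sum_erase F (fun x => x) h1.1
  have h2 : ∑ x ∈ F.erase j, x + j = ∑ x ∈ F, x := by rw [← this]; ring
  omega

/-- Lemma A: stable families. -/
theorem exists_stable {d r n : ℕ} {H : Finset (Finset ℕ)} (hH : H ⊆ powersetCard r (range n))
    (hd : NoM d H) : ∃ H' ⊆ powersetCard r (range n), H'.card = H.card ∧ NoM d H' ∧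
      Stb 0 H' := by
  classical
  set 𝒮 := (powersetCard r (range n)).powerset.filter fun H' => H'.card = H.card ∧ NoM d H'
    with h𝒮
  obtain ⟨H', hH', hmin⟩ : ∃ H' ∈ 𝒮, ∀ H'' ∈ 𝒮, wt H' ≤ wt H'' := by
    apply exists_min_image
    exact ⟨H, by rw [h𝒮, mem_filter, mem_powerset]; exact ⟨hH, rfl, hd⟩⟩
  rw [h𝒮, mem_filter, mem_powerset] at hH'
  obtain ⟨h1, h2, h3⟩ := hH'
  refine ⟨H', h1, h2, h3, ?_⟩
  intro F hF j hj i _ hij hi
  by_contra hno
  have hmoved : j ∈ F ∧ i ∉ F ∧ insert i (F.erase j) ∉ H' := ⟨hj, hi, hno⟩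
  have h4 : shH H' i j ∈ 𝒮 := by
    rw [h𝒮, mem_filter, mem_powerset]
    refine ⟨?_, by rw [card_shH hij.ne, h2], NoM_shH hij.ne h3⟩
    intro E hE
    rw [shH, mem_image] at hE
    obtain ⟨G, hG, rfl⟩ := hE
    have hG' := h1 hG
    rw [mem_powersetCard] at hG' ⊢
    by_cases h5 : j ∈ G ∧ i ∉ G ∧ insert i (G.erase j) ∉ H'
    · rw [shf_moved h5]
      constructor
      · intro x hx
        rw [mem_insert, mem_erase] at hx
        rcases hx with hx | hx
        · have := mem_range.mp (hG'.1 h5.1)
          rw [hx, mem_range]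
          omega
        · exact hG'.1 hx.2
      · rw [card_insert_of_notMem (fun h => h5.2.1 (mem_of_mem_erase h)), card_erase_of_mem h5.1,
          hG'.2]
        have : 0 < G.card := card_pos.mpr ⟨j, h5.1⟩
        omega
    · rw [shf_stay h5]
      exact hG'
  have h5 := hmin _ h4
  have h6 : wt (shH H' i j) < wt H' := by
    rw [wt, shH, sum_image (fun F hF F' hF' h => shf_inj hij.ne (mem_coe.mp hF) (mem_coe.mp hF') h)]
    exact sum_lt_sum (fun G _ => wt_shf hij) ⟨F, hF, wt_shf_lt hij hmoved⟩
  omega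

end Pool.Agent.Lib.MP_455133_co.EM
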