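import Mathlib
import Pool.Agent.Lib.MP_455133_co.EM.EmcA

/-!
Frankl's shadow inequality for stable families without `d + 1` disjoint members.
-/

namespace Pool.Agent.Lib.MP_455133_co.EM

open Finset

open scoped FinsetFamily

/-- the local inequality of Lubell, Yamamoto, Meshalkin -/
theorem lym_local {k : ℕ} {W : Finset ℕ} {H : Finset (Finset ℕ)}
    (hH : H ⊆ powersetCard (k + 1) W) : H.card * (k + 1) ≤ (∂ H).card * (W.card - k) := by
  classical
  apply card_mul_le_card_mul (fun (F S : Finset ℕ) => S ⊆ F)
  · intro F hF
    have hFc := (mem_powersetCard.mp (hH hF)).2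
    have h1 : (F.image fun x => F.erase x) ⊆ bipartiteAbove (fun (F S : Finset ℕ) => S ⊆ F)
        (∂ H) F := by
      intro S hS
      rw [mem_image] at hS
      obtain ⟨x, hx, rfl⟩ := hS
      rw [bipartiteAbove, mem_filter]
      exact ⟨erase_mem_shadow hF hx, erase_subset _ _⟩
    have h2 := card_le_card h1
    rw [card_image_of_injOn, hFc] at h2
    · exact h2
    · intro x hx y hy hxy
      by_contra hne
      have h3 : x ∈ F.erase y := mem_erase.mpr ⟨hne, hx⟩
      have h4 : F.erase x = F.erase y := hxy
      rw [← h4] at h3
      exact absurd rfl (ne_of_mem_erase h3)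
  · intro S hS
    obtain ⟨F, hF, x, hx, hxF⟩ := mem_shadow_iff.mp hS
    have hFc := mem_powersetCard.mp (hH hF)
    have hSc : S.card = k := by rw [← hxF, card_erase_of_mem hx, hFc.2]; rfl
    have hSW : S ⊆ W := by rw [← hxF]; exact (erase_subset _ _).trans hFc.1
    have h1 : bipartiteBelow (fun (F S : Finset ℕ) => S ⊆ F) H S ⊆
        (W \ S).image fun x => insert x S := by
      intro G hG
      rw [bipartiteBelow, mem_filter] at hG
      have hGc := mem_powersetCard.mp (hH hG.1)
      obtain ⟨y, hy, hy2⟩ : ∃ y, y ∈ G ∧ y ∉ S := by
        by_contra hno
        push Not at hno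
        have := card_le_card (show G ⊆ S from fun z hz => hno z hz)
        omega
      rw [mem_image]
      refine ⟨y, mem_sdiff.mpr ⟨hGc.1 hy, hy2⟩, ?_⟩
      apply eq_of_subset_of_card_le (insert_subset hy hG.2)
      rw [card_insert_of_notMem hy2, hSc, hGc.2]
    refine (card_le_card h1).trans (card_image_le.trans ?_)
    rw [card_sdiff_of_subset hSW, hSc]

/-- distinct representatives -/
theorem exists_inj {β : Type*} {M : Finset β} {W : Finset ℕ} (h : M.card ≤ W.card) :
    ∃ y : β → ℕ, (∀ e ∈ M, y e ∈ W) ∧ ∀ e ∈ M, ∀ e' ∈ M, y e = y e' → e = e' := by
  classical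
  obtain ⟨W', hW', hc⟩ := exists_subset_card_eq h
  have e := Finset.equivOfCardEq hc.symm
  refine ⟨fun b => if hb : b ∈ M then (e ⟨b, hb⟩ : ℕ) else 0, ?_, ?_⟩
  · intro b hb
    simp only [dif_pos hb]
    exact hW' (e ⟨b, hb⟩).2
  · intro b hb b' hb' h
    simp only [dif_pos hb, dif_pos hb'] at h
    have h1 := e.injective (Subtype.ext h)
    exact congrArg Subtype.val h1

/-- Lemma B: the shadow inequality for stable families. -/
theorem shadow_stable {d a : ℕ} : ∀ (m k : ℕ) (H : Finset (Finset ℕ)),
    H ⊆ powersetCard (k + 1) (Ico a (a + m)) → NoM d H → Stb a H →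
    H.card ≤ d * (∂ H).card := by
  classical
  intro m
  induction m with
  | zero =>
    intro k H hH _ _
    have h1 : H = ∅ := by
      rw [eq_empty_iff_forall_notMem]
      intro F hF
      obtain ⟨h1, h2⟩ := mem_powersetCard.mp (hH hF)
      have h3 := card_le_card h1
      rw [Nat.card_Ico] at h3
      omega
    rw [h1]
    simp
  | succ m ih =>
    intro k H hH hd hS
    rcases Nat.lt_or_ge (m + 1) ((k + 1) * (d + 1)) with hsm | hbig
    · -- few points
      have h1 := lym_local hH
      rw [Nat.card_Ico, Nat.add_sub_cancel_left] at h1
      have h2 : m + 1 - k ≤ (k + 1) * d := by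
        have : (k + 1) * (d + 1) = (k + 1) * d + (k + 1) := by ring
        omega
      have h3 : (∂ H).card * (m + 1 - k) ≤ (∂ H).card * ((k + 1) * d) :=
        Nat.mul_le_mul_left _ h2
      have h4 : H.card * (k + 1) ≤ (d * (∂ H).card) * (k + 1) := by
        refine h1.trans (h3.trans (le_of_eq ?_))
        ring
      exact Nat.le_of_mul_le_mul_right h4 (by omega)
    · rcases Nat.eq_zero_or_pos k with hk | hk
      · -- singletons
        subst hk
        have h1 : H.card ≤ d := by
          apply hd H (Subset.refl _)
          intro e he e' he' hne
          obtain ⟨x, hx⟩ := card_eq_one.mp (mem_powersetCard.mp (hH he)).2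
          obtain ⟨y, hy⟩ := card_eq_one.mp (mem_powersetCard.mp (hH he')).2
          rw [hx, hy, disjoint_singleton]
          intro hxy
          exact hne (by rw [hx, hy, hxy])
        rcases Nat.eq_zero_or_pos H.card with h0 | h0
        · omega
        · obtain ⟨e, he⟩ := card_pos.mp h0
          obtain ⟨x, hx⟩ := card_eq_one.mp (mem_powersetCard.mp (hH he)).2
          have h2 : 0 < (∂ H).card := card_pos.mpr
            ⟨e.erase x, erase_mem_shadow he (by rw [hx]; exact mem_singleton_self x)⟩
          nlinarith
      · -- the last point
        obtain ⟨k', rfl⟩ : ∃ k', k = k' + 1 := ⟨k - 1, by omega⟩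
        set x := a + m with hx
        set H0 := H.filter fun F => x ∉ F with hH0
        set H1 := (H.filter fun F => x ∈ F).image fun F => F.erase x with hH1
        have hmem1 : ∀ G ∈ H1, x ∉ G ∧ insert x G ∈ H := by
          intro G hG
          rw [hH1, mem_image] at hG
          obtain ⟨F, hF, rfl⟩ := hG
          rw [mem_filter] at hF
          exact ⟨notMem_erase _ _, by rw [insert_erase hF.2]; exact hF.1⟩
        have hmem1' : ∀ G, x ∉ G → insert x G ∈ H → G ∈ H1 := by
          intro G h1 h2
          rw [hH1, mem_image]
          exact ⟨insert x G, mem_filter.mpr ⟨h2, mem_insert_self _ _⟩, erase_insert h1⟩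
        have hIco : ∀ z, z ∈ Ico a (a + (m + 1)) → z ≠ x → z ∈ Ico a (a + m) := by
          intro z hz hzx
          rw [mem_Ico] at hz ⊢
          omega
        have hc1 : H1.card = (H.filter fun F => x ∈ F).card := by
          rw [hH1, card_image_of_injOn]
          intro F hF F' hF' h
          rw [mem_coe, mem_filter] at hF hF'
          have h' : F.erase x = F'.erase x := h
          rw [← insert_erase hF.2, ← insert_erase hF'.2, h']
        have hcard : H.card = H0.card + H1.card := by
          rw [hc1, hH0, add_comm]
          exact (card_filter_add_card_filter_not (s := H) (fun F => x ∈ F)).symm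
        have hH1s : H1 ⊆ powersetCard (k' + 1) (Ico a (a + m)) := by
          intro G hG
          obtain ⟨h1, h2⟩ := hmem1 G hG
          have h3 := mem_powersetCard.mp (hH h2)
          rw [card_insert_of_notMem h1] at h3
          rw [mem_powersetCard]
          exact ⟨fun z hz => hIco z (h3.1 (mem_insert_of_mem hz)) (fun h => h1 (h ▸ hz)),
            by omega⟩
        have hH0s : H0 ⊆ powersetCard (k' + 1 + 1) (Ico a (a + m)) := by
          intro G hG
          rw [hH0, mem_filter] at hG
          have h3 := mem_powersetCard.mp (hH hG.1)
          rw [mem_powersetCard]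
          exact ⟨fun z hz => hIco z (h3.1 hz) (fun h => hG.2 (h ▸ hz)), h3.2⟩
        have i0 := ih (k' + 1) H0 hH0s (NoM_mono (filter_subset _ _) hd) (by
          intro F hF j hj i hai hij hi
          have hF' := hF
          rw [hH0, mem_filter] at hF ⊢
          refine ⟨hS F hF.1 j hj i hai hij hi, ?_⟩
          rw [mem_insert, mem_erase]
          rintro (h | h)
          · have h2 := mem_Ico.mp ((mem_powersetCard.mp (hH0s hF')).1 hj)
            omega
          · exact hF.2 h.2)
        have i1 := ih k' H1 hH1s (by
          intro M hM hPD
          by_contra hlt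
          push Not at hlt
          obtain ⟨M', hM', hM'c⟩ := exists_subset_card_eq (s := M) (n := d + 1) hlt
          have hM'1 : M' ⊆ H1 := hM'.trans hM
          have hU : (M'.biUnion id).card ≤ M'.card * (k' + 1) := by
            apply card_biUnion_le_card_mul
            intro e he
            exact (mem_powersetCard.mp (hH1s (hM'1 he))).2.le
          rw [hM'c] at hU
          have hfree : M'.card ≤ (Ico a (a + (m + 1)) \ M'.biUnion id).card := by
            have h1 := le_card_sdiff (M'.biUnion id) (Ico a (a + (m + 1)))
            rw [Nat.card_Ico, Nat.add_sub_cancel_left] at h1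
            rw [hM'c]
            have h2 : (k' + 1 + 1) * (d + 1) = (d + 1) * (k' + 1) + (d + 1) := by ring
            omega
          obtain ⟨y, hy1, hy2⟩ := exists_inj hfree
          have hyM : ∀ e ∈ M', ∀ e' ∈ M', y e ∉ e' := by
            intro e he e' he' h
            exact (mem_sdiff.mp (hy1 e he)).2 (mem_biUnion.mpr ⟨e', he', h⟩)
          have hins : ∀ e ∈ M', insert (y e) e ∈ H := by
            intro e he
            obtain ⟨h1, h2⟩ := hmem1 e (hM'1 he)
            have h3 := mem_Ico.mp (mem_sdiff.mp (hy1 e he)).1
            rcases eq_or_ne (y e) x with h4 | h4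
            · rw [h4]; exact h2
            · have h5 := hS _ h2 x (mem_insert_self _ _) (y e) h3.1 (by omega) (by
                rw [mem_insert]
                rintro (h | h)
                · exact h4 h
                · exact hyM e he e he h)
              rw [erase_insert h1] at h5
              exact h5
          have hinj : ∀ e ∈ M', ∀ e' ∈ M', insert (y e) e = insert (y e') e' → e = e' := by
            intro e he e' he' h
            apply hy2 e he e' he'
            have h1 : y e ∈ insert (y e') e' := by rw [← h]; exact mem_insert_self _ _
            rw [mem_insert] at h1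
            rcases h1 with h1 | h1
            · exact h1
            · exact absurd h1 (hyM e he e' he')
          have h6 := hd (M'.image fun e => insert (y e) e) (by
            intro E hE
            rw [mem_image] at hE
            obtain ⟨e, he, rfl⟩ := hE
            exact hins e he) (by
            intro E hE E' hE' hne
            rw [mem_image] at hE hE'
            obtain ⟨e, he, rfl⟩ := hE
            obtain ⟨e', he', rfl⟩ := hE'
            have hee : e ≠ e' := fun h => hne (by rw [h])
            have h7 := hPD e (hM' he) e' (hM' he') hee
            rw [disjoint_left]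
            intro z hz hz'
            rw [mem_insert] at hz hz'
            rcases hz with hz | hz <;> rcases hz' with hz' | hz'
            · exact hee (hy2 e he e' he' (hz.symm.trans hz'))
            · exact hyM e he e' he' (hz ▸ hz')
            · exact hyM e' he' e he (hz' ▸ hz)
            · exact (disjoint_left.mp h7) hz hz')
          rw [card_image_of_injOn (fun e he e' he' h => hinj e (mem_coe.mp he) e' (mem_coe.mp he') h),
            hM'c] at h6
          omega) (by
          intro F hF j hj i hai hij hi
          obtain ⟨h1, h2⟩ := hmem1 F hF
          have hjx : j < x := by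
            have := mem_Ico.mp ((mem_powersetCard.mp (hH1s hF)).1 hj)
            omega
          have h3 := hS _ h2 j (mem_insert_of_mem hj) i hai hij (by
            rw [mem_insert]
            rintro (h | h)
            · omega
            · exact hi h)
          apply hmem1'
          · rw [mem_insert, mem_erase]
            rintro (h | h)
            · omega
            · exact h1 h.2
          · have h4 : (insert x F).erase j = insert x (F.erase j) := by
              rw [erase_insert_of_ne hjx.ne']
            rw [h4] at h3
            rw [insert_comm]
            exact h3)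
        -- the two shadows
        have h1 : Disjoint (∂ H0) ((∂ H1).image fun S => insert x S) := by
          rw [disjoint_left]
          intro S hS1 hS2
          obtain ⟨F, hF, z, hz, rfl⟩ := mem_shadow_iff.mp hS1
          rw [mem_image] at hS2
          obtain ⟨T, -, hT⟩ := hS2
          have h3 : x ∈ F.erase z := by rw [← hT]; exact mem_insert_self _ _
          exact (mem_filter.mp hF).2 (mem_of_mem_erase h3)
        have h2 : ∂ H0 ∪ (∂ H1).image (fun S => insert x S) ⊆ ∂ H := by
          apply union_subset (shadow_mono (filter_subset _ _))
          intro S hS1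
          rw [mem_image] at hS1
          obtain ⟨T, hT, rfl⟩ := hS1
          obtain ⟨G, hG, z, hz, rfl⟩ := mem_shadow_iff.mp hT
          obtain ⟨h3, h4⟩ := hmem1 G hG
          have hzx : x ≠ z := fun h => h3 (h ▸ hz)
          rw [← erase_insert_of_ne hzx]
          exact erase_mem_shadow h4 (mem_insert_of_mem hz)
        have h3 := card_le_card h2
        rw [card_union_of_disjoint h1, card_image_of_injOn] at h3
        · rw [hcard]
          have h4 : d * ((∂ H0).card + (∂ H1).card) ≤ d * (∂ H).card := Nat.mul_le_mul_left _ h3
          rw [Nat.mul_add] at h4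
          omega
        · intro S hS1 S' hS1' h
          rw [mem_coe] at hS1 hS1'
          have hn : ∀ T ∈ ∂ H1, x ∉ T := by
            intro T hT
            obtain ⟨G, hG, z, hz, rfl⟩ := mem_shadow_iff.mp hT
            exact fun h => (hmem1 G hG).1 (mem_of_mem_erase h)
          have h' : insert x S = insert x S' := h
          rw [← erase_insert (hn S hS1), ← erase_insert (hn S' hS1'), h']

end Pool.Agent.Lib.MP_455133_co.EM
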