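import Mathlib

/-!
Nested cross-dependent families: the averaging argument.
-/

namespace Pool.Agent.Lib.MP_455133_co.EM

open Finset

/-- the combinatorial inequality for nested sets without distinct representatives -/
theorem nested_ineq {d t : ℕ} (ht : 2 * d + 1 ≤ t) {D : ℕ → Finset (Fin t)}
    (hnest : ∀ i i', i ≤ i' → i' ≤ d → D i' ⊆ D i)
    (hno : ¬ ∃ j : Fin (d + 1) → Fin t, Function.Injective j ∧ ∀ i : Fin (d + 1), j i ∈ D i) :
    ∑ i ∈ range d, (D i).card + (d + 1) * (D d).card ≤ d * t := by
  classical
  -- Hall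
  have h1 : ¬ ∀ S : Finset (Fin (d + 1)), S.card ≤ (S.biUnion fun i => D i).card := by
    intro h
    apply hno
    obtain ⟨j, hj1, hj2⟩ := (all_card_le_biUnion_card_iff_exists_injective
      (fun i : Fin (d + 1) => D i)).mp h
    exact ⟨j, hj1, hj2⟩
  push Not at h1
  obtain ⟨S, hS⟩ := h1
  have hSne : S.Nonempty := by
    rw [nonempty_iff_ne_empty]
    intro h
    rw [h] at hS
    simp at hS
  set i0 := S.min' hSne with hi0
  have hi0S : i0 ∈ S := min'_mem _ _
  have h2 : (D i0).card < S.card := by
    refine lt_of_le_of_lt (card_le_card ?_) hS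
    exact subset_biUnion_of_mem (fun i : Fin (d + 1) => D i) hi0S
  have h3 : S.card ≤ d + 1 - i0 := by
    have h4 : S ⊆ univ.filter fun i : Fin (d + 1) => i0 ≤ i := by
      intro i hi
      rw [mem_filter]
      exact ⟨mem_univ _, min'_le _ _ hi⟩
    have h5 := card_le_card h4
    have h6 : (univ.filter fun i : Fin (d + 1) => i0 ≤ i) = Ici i0 := by
      ext i; simp
    rw [h6, Fin.card_Ici] at h5
    exact h5
  obtain ⟨a, ha⟩ : ∃ a : ℕ, a = (i0 : ℕ) := ⟨_, rfl⟩
  have had : a ≤ d := by have := i0.2; omega
  have hDa : (D a).card ≤ d - a := by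
    rw [ha]
    omega
  have hbig : ∀ i, (D i).card ≤ t := by
    intro i
    have := card_le_univ (D i)
    rwa [Fintype.card_fin] at this
  have hsm : ∀ i, a ≤ i → i ≤ d → (D i).card ≤ d - a := fun i h1 h2 =>
    (card_le_card (hnest a i h1 h2)).trans hDa
  have h4 : ∑ i ∈ range d, (D i).card ≤ a * t + (d - a) * (d - a) := by
    have h5 : ∑ i ∈ range d, (D i).card = ∑ i ∈ range a, (D i).card +
        ∑ i ∈ range (d - a), (D (a + i)).card := by
      have h6 : d = a + (d - a) := by omega
      conv_lhs => rw [h6]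
      exact sum_range_add (fun i => (D i).card) a (d - a)
    rw [h5]
    apply Nat.add_le_add
    · refine (sum_le_sum fun i _ => hbig i).trans ?_
      rw [sum_const, card_range, smul_eq_mul]
    · refine (sum_le_sum fun i hi => hsm (a + i) (by omega) (by
        rw [mem_range] at hi; omega)).trans ?_
      rw [sum_const, card_range, smul_eq_mul]
  have h5 : (d + 1) * (D d).card ≤ (d + 1) * (d - a) := Nat.mul_le_mul_left _ (hsm d had le_rfl)
  obtain ⟨b, hb⟩ : ∃ b, d = a + b := ⟨d - a, by omega⟩
  have h6 : d - a = b := by omega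
  rw [h6] at h4 h5
  have h7 : a * t + b * b + (d + 1) * b ≤ d * t := by
    have h8 : b + (d + 1) ≤ t := by omega
    have h9 : b * (b + (d + 1)) ≤ b * t := Nat.mul_le_mul_left _ h8
    have h10 : d * t = a * t + b * t := by rw [hb]; ring
    nlinarith
  omega

variable {α : Type*} [Fintype α] [DecidableEq α]

/-- the permutations that send `P` to `G` -/
theorem card_perm_eq {P G G' : Finset α} (h : G.card = G'.card) :
    (univ.filter fun σ : Equiv.Perm α => P.map σ.toEmbedding = G).card =
      (univ.filter fun σ : Equiv.Perm α => P.map σ.toEmbedding = G').card := by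
  classical
  -- a permutation which sends `G` to `G'`
  obtain ⟨τ, hτ⟩ : ∃ τ : Equiv.Perm α, G.map τ.toEmbedding = G' := by
    have e : {x // x ∈ G} ≃ {x // x ∈ G'} := Finset.equivOfCardEq h
    refine ⟨e.extendSubtype, ?_⟩
    apply eq_of_subset_of_card_le
    · intro x hx
      rw [mem_map] at hx
      obtain ⟨y, hy, rfl⟩ := hx
      exact e.extendSubtype_mem y hy
    · rw [card_map, h]
  apply card_bij (fun σ _ => σ.trans τ)
  · intro σ hσ
    rw [mem_filter] at hσ ⊢
    refine ⟨mem_univ _, ?_⟩
    rw [← hτ, ← hσ.2, map_map]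
    rfl
  · intro σ _ σ' _ h
    ext x
    have h1 := congrArg (fun f : Equiv.Perm α => f x) h
    exact τ.injective h1
  · intro σ hσ
    rw [mem_filter] at hσ
    refine ⟨σ.trans τ.symm, ?_, ?_⟩
    · rw [mem_filter]
      refine ⟨mem_univ _, ?_⟩
      have h1 : (P.map (σ.trans τ.symm).toEmbedding).map τ.toEmbedding = G.map τ.toEmbedding := by
        rw [hτ, ← hσ.2, map_map]
        congr 1
        ext x
        simp
      exact map_injective _ h1
    · ext x
      simp

/-- counting the permutations which send `P` into a family -/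
theorem card_perm_family {l : ℕ} {P : Finset α} (hP : P.card = l) {F : Finset (Finset α)}
    (hF : ∀ G ∈ F, G.card = l) :
    (univ.filter fun σ : Equiv.Perm α => P.map σ.toEmbedding ∈ F).card =
      F.card * (univ.filter fun σ : Equiv.Perm α => P.map σ.toEmbedding = P).card := by
  classical
  have h1 : (univ.filter fun σ : Equiv.Perm α => P.map σ.toEmbedding ∈ F) =
      F.biUnion fun G => univ.filter fun σ : Equiv.Perm α => P.map σ.toEmbedding = G := by
    ext σ
    simp
  rw [h1, card_biUnion]
  · rw [sum_congr rfl fun G hG => card_perm_eq (P := P) (G := G) (G' := P)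
      (by rw [hF G hG, hP]), sum_const, smul_eq_mul]
  · intro G _ G' _ hne
    refine disjoint_left.mpr fun σ h1 h2 => ?_
    rw [mem_filter] at h1 h2
    exact hne (h1.2.symm.trans h2.2)

omit [DecidableEq α] in
theorem exists_disjoint_blocks {l t : ℕ} (h : t * l ≤ Fintype.card α) :
    ∃ P : Fin t → Finset α, (∀ i, (P i).card = l) ∧ ∀ i j, i ≠ j → Disjoint (P i) (P j) := by
  classical
  have hcard : Fintype.card (Σ _ : Fin t, Fin l) ≤ Fintype.card α := by
    simpa using h
  obtain ⟨e⟩ := Function.Embedding.nonempty_of_card_le hcard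
  refine ⟨fun i => univ.map ((Function.Embedding.sigmaMk i).trans e), ?_, ?_⟩
  · intro i; simp
  · intro i j hij
    rw [disjoint_left]
    intro x hx hx'
    simp only [mem_map, mem_univ, true_and, Function.Embedding.trans_apply,
      Function.Embedding.sigmaMk_apply] at hx hx'
    obtain ⟨y, hy⟩ := hx
    obtain ⟨y', hy'⟩ := hx'
    have := e.injective (hy.trans hy'.symm)
    exact hij (by simpa using congrArg Sigma.fst this)

/-- Lemma C: nested cross-dependent families. -/
theorem cross_dep {l d : ℕ} (hY : (2 * d + 1) * l ≤ Fintype.card α)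
    {F : ℕ → Finset (Finset α)} (hF : ∀ i, ∀ G ∈ F i, G.card = l)
    (hnest : ∀ i i', i ≤ i' → i' ≤ d → F i' ⊆ F i)
    (hcd : ¬ ∃ G : Fin (d + 1) → Finset α, (∀ i : Fin (d + 1), G i ∈ F i) ∧
      ∀ i j : Fin (d + 1), i ≠ j → Disjoint (G i) (G j)) :
    ∑ i ∈ range d, (F i).card + (d + 1) * (F d).card ≤ d * (Fintype.card α).choose l := by
  classical
  set t := 2 * d + 1 with ht
  obtain ⟨P, hPc, hPd⟩ := exists_disjoint_blocks (α := α) (t := t) (l := l) hY
  obtain ⟨K, hK⟩ : ∃ K : ℕ, ∀ P' : Finset α, P'.card = l →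
      (univ.filter fun σ : Equiv.Perm α => P'.map σ.toEmbedding = P').card = K ∧ 0 < K := by
    refine ⟨(univ.filter fun σ : Equiv.Perm α =>
      (P ⟨0, by omega⟩).map σ.toEmbedding = P ⟨0, by omega⟩).card, ?_⟩
    intro P' hP'
    constructor
    · -- both counts times the number of sets are the number of permutations
      have key : ∀ Q : Finset α, Q.card = l →
          Fintype.card (Equiv.Perm α) = (powersetCard l (univ : Finset α)).card *
            (univ.filter fun σ : Equiv.Perm α => Q.map σ.toEmbedding = Q).card := by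
        intro Q hQ
        rw [← card_perm_family hQ (F := powersetCard l univ)
          (fun G hG => (mem_powersetCard.mp hG).2), ← card_univ]
        congr 1
        ext σ
        simp [mem_powersetCard, hQ]
      have h1 := key P' hP'
      have h2 := key (P ⟨0, by omega⟩) (hPc _)
      rw [h2] at h1
      have h3 : 0 < (powersetCard l (univ : Finset α)).card :=
        card_pos.mpr ⟨P', mem_powersetCard.mpr ⟨subset_univ _, hP'⟩⟩
      exact (Nat.eq_of_mul_eq_mul_left h3 h1).symm
    · apply card_pos.mpr
      refine ⟨Equiv.refl α, ?_⟩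
      rw [mem_filter]
      refine ⟨mem_univ _, ?_⟩
      ext x
      simp
  have hK0 : 0 < K := (hK (P ⟨0, by omega⟩) (hPc _)).2
  have hcount : ∀ (F' : Finset (Finset α)), (∀ G ∈ F', G.card = l) → ∀ j : Fin t,
      (univ.filter fun σ : Equiv.Perm α => (P j).map σ.toEmbedding ∈ F').card =
        F'.card * K := by
    intro F' hF' j
    rw [card_perm_family (hPc j) hF', (hK (P j) (hPc j)).1]
  -- for each permutation
  set D : Equiv.Perm α → ℕ → Finset (Fin t) := fun σ i =>
    univ.filter fun j => (P j).map σ.toEmbedding ∈ F i with hD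
  have hσ : ∀ σ : Equiv.Perm α, ∑ i ∈ range d, (D σ i).card + (d + 1) * (D σ d).card ≤
      d * t := by
    intro σ
    apply nested_ineq (by omega)
    · intro i i' h1 h2 j hj
      rw [hD, mem_filter] at hj ⊢
      exact ⟨mem_univ _, hnest i i' h1 h2 hj.2⟩
    · rintro ⟨j, hj1, hj2⟩
      apply hcd
      refine ⟨fun i => (P (j i)).map σ.toEmbedding, ?_, ?_⟩
      · intro i
        have := hj2 i
        rw [hD, mem_filter] at this
        exact this.2
      · intro i i' hne
        have h1 := hPd (j i) (j i') (fun h => hne (hj1 h))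
        rw [disjoint_map]
        exact h1
  -- sum over the permutations
  have hswap : ∀ i, ∑ σ : Equiv.Perm α, (D σ i).card = t * ((F i).card * K) := by
    intro i
    have h1 : ∑ σ : Equiv.Perm α, (D σ i).card = ∑ j : Fin t,
        (univ.filter fun σ : Equiv.Perm α => (P j).map σ.toEmbedding ∈ F i).card := by
      simp only [hD, card_filter]
      exact sum_comm
    rw [h1, sum_congr rfl fun j _ => hcount (F i) (hF i) j, sum_const, card_univ,
      Fintype.card_fin, smul_eq_mul]
  have htot : Fintype.card (Equiv.Perm α) = (Fintype.card α).choose l * K := by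
    have h1 := hcount (powersetCard l univ) (fun G hG => (mem_powersetCard.mp hG).2)
      ⟨0, by omega⟩
    rw [card_powersetCard, card_univ] at h1
    rw [← h1, ← card_univ]
    congr 1
    ext σ
    simp [mem_powersetCard, hPc]
  have h1 : ∑ σ : Equiv.Perm α, (∑ i ∈ range d, (D σ i).card + (d + 1) * (D σ d).card) ≤
      ∑ σ : Equiv.Perm α, d * t := sum_le_sum fun σ _ => hσ σ
  rw [sum_add_distrib, sum_comm, ← mul_sum, hswap d, sum_congr rfl fun i _ => hswap i,
    sum_const, card_univ, smul_eq_mul, htot, ← mul_sum, ← sum_mul] at h1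
  have htK : 0 < t * K := Nat.mul_pos (by omega) hK0
  have h2 : (∑ i ∈ range d, (F i).card + (d + 1) * (F d).card) * (t * K) ≤
      (d * (Fintype.card α).choose l) * (t * K) := by
    calc (∑ i ∈ range d, (F i).card + (d + 1) * (F d).card) * (t * K)
        = t * ((∑ i ∈ range d, (F i).card) * K) + (d + 1) * (t * ((F d).card * K)) := by ring
      _ ≤ (Fintype.card α).choose l * K * (d * t) := h1
      _ = (d * (Fintype.card α).choose l) * (t * K) := by ring
  exact Nat.le_of_mul_le_mul_right h2 htK

end Pool.Agent.Lib.MP_455133_co.EM
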