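import Mathlib
import Pool.Agent.Lib.MP_455133_co.EM.EmcA
import Pool.Agent.Lib.MP_455133_co.EM.EmcB
import Pool.Agent.Lib.MP_455133_co.EM.EmcC

/-!
Frankl's theorem on the Erdos matching problem: a family of `r`-subsets of an `n`-set without
`d + 1` pairwise disjoint members has at most `C(n,r) - C(n-d,r)` members if
`n ≥ (2d+1) r - d`.
-/

namespace Pool.Agent.Lib.MP_455133_co.EM

open Finset

open scoped FinsetFamily

/-- the links of the small points in the rest -/
def Alk (d k n : ℕ) (H : Finset (Finset ℕ)) (i : ℕ) : Finset (Finset ℕ) :=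
  (powersetCard k (Ico (d + 1) n)).filter fun G => insert i G ∈ H

theorem mem_Alk {d k n i : ℕ} {H : Finset (Finset ℕ)} {G : Finset ℕ} :
    G ∈ Alk d k n H i ↔ (G ⊆ Ico (d + 1) n ∧ G.card = k) ∧ insert i G ∈ H := by
  rw [Alk, mem_filter, mem_powersetCard]

theorem notMem_small {d n i : ℕ} {G : Finset ℕ} (hG : G ⊆ Ico (d + 1) n) (hi : i ≤ d) :
    i ∉ G := by
  intro h
  have := mem_Ico.mp (hG h)
  omega

theorem cross_links {d k n : ℕ} {H : Finset (Finset ℕ)} (hd : NoM d H) (hS : Stb 0 H)
    (hn : (2 * d + 1) * (k + 1) ≤ n + d) :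
    ∑ i ∈ range d, (Alk d k n H i).card + (d + 1) * (Alk d k n H d).card ≤
      d * (n - (d + 1)).choose k := by
  classical
  set Y := Ico (d + 1) n with hY
  set emb : {x // x ∈ Y} ↪ ℕ := Function.Embedding.subtype (fun x => x ∈ Y) with hemb
  set F : ℕ → Finset (Finset {x // x ∈ Y}) := fun i =>
    univ.filter fun G => G.map emb ∈ Alk d k n H i with hF
  have hsub : ∀ G : Finset {x // x ∈ Y}, G.map emb ⊆ Y := by
    intro G x hx
    rw [mem_map] at hx
    obtain ⟨y, -, rfl⟩ := hx
    exact y.2
  have hcard : ∀ i, (F i).card = (Alk d k n H i).card := by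
    intro i
    have h1 : (F i).image (fun G => G.map emb) = Alk d k n H i := by
      ext G
      rw [mem_image]
      constructor
      · rintro ⟨G', hG', rfl⟩
        rw [hF, mem_filter] at hG'
        exact hG'.2
      · intro hG
        have hGY := (mem_Alk.mp hG).1.1
        refine ⟨G.subtype (fun x => x ∈ Y), ?_, ?_⟩
        · rw [hF, mem_filter]
          refine ⟨mem_univ _, ?_⟩
          rw [hemb, subtype_map_of_mem hGY]
          exact hG
        · show (G.subtype (fun x => x ∈ Y)).map emb = G
          rw [hemb, subtype_map_of_mem hGY]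
    rw [← h1, card_image_of_injective]
    exact map_injective emb
  have hYc : Fintype.card {x // x ∈ Y} = n - (d + 1) := by
    rw [Fintype.card_coe, hY, Nat.card_Ico]
  have h := cross_dep (α := {x // x ∈ Y}) (l := k) (d := d) (F := F) (by
      rw [hYc]
      have h1 : (2 * d + 1) * (k + 1) = (2 * d + 1) * k + (2 * d + 1) := by ring
      omega) (by
      intro i G hG
      rw [hF, mem_filter] at hG
      have := (mem_Alk.mp hG.2).1.2
      rwa [card_map] at this) (by
      intro i i' hii hi'd G hG
      rw [hF, mem_filter] at hG ⊢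
      refine ⟨mem_univ _, ?_⟩
      obtain ⟨⟨h1, h2⟩, h3⟩ := mem_Alk.mp hG.2
      rw [mem_Alk]
      refine ⟨⟨h1, h2⟩, ?_⟩
      rcases Nat.eq_or_lt_of_le hii with h4 | h4
      · rw [h4]; exact h3
      · have h5 := hS _ h3 i' (mem_insert_self _ _) i (Nat.zero_le _) h4 (by
          rw [mem_insert]
          rintro (h | h)
          · omega
          · exact notMem_small h1 (by omega) h)
        rw [erase_insert (notMem_small h1 hi'd)] at h5
        exact h5) (by
      rintro ⟨G, hG1, hG2⟩
      have hGm : ∀ i : Fin (d + 1), (G i).map emb ⊆ Y ∧ insert (i : ℕ) ((G i).map emb) ∈ H := by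
        intro i
        have h1 := hG1 i
        rw [hF, mem_filter] at h1
        obtain ⟨⟨h2, -⟩, h3⟩ := mem_Alk.mp h1.2
        exact ⟨h2, h3⟩
      set E : Fin (d + 1) → Finset ℕ := fun i => insert (i : ℕ) ((G i).map emb) with hE
      have hEd : ∀ i j : Fin (d + 1), i ≠ j → Disjoint (E i) (E j) := by
        intro i j hij
        rw [disjoint_left]
        intro x hx hx'
        rw [hE, mem_insert] at hx hx'
        rcases hx with hx | hx <;> rcases hx' with hx' | hx'
        · exact hij (Fin.ext (hx.symm.trans hx'))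
        · exact notMem_small (hGm j).1 (Nat.lt_succ_iff.mp i.2) (hx ▸ hx')
        · exact notMem_small (hGm i).1 (Nat.lt_succ_iff.mp j.2) (hx' ▸ hx)
        · have h1 := hG2 i j hij
          rw [← disjoint_map emb] at h1
          exact (disjoint_left.mp h1) hx hx'
      have hEinj : Function.Injective E := by
        intro i j hij
        by_contra hne
        have h1 := hEd i j hne
        rw [← hij] at h1
        exact (disjoint_left.mp h1) (mem_insert_self _ _) (mem_insert_self _ _)
      have h1 := hd (univ.image E) (by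
        intro e he
        rw [mem_image] at he
        obtain ⟨i, -, rfl⟩ := he
        exact (hGm i).2) (by
        intro e he e' he' hne
        rw [mem_image] at he he'
        obtain ⟨i, -, rfl⟩ := he
        obtain ⟨j, -, rfl⟩ := he'
        exact hEd i j fun h => hne (by rw [h]))
      rw [card_image_of_injective _ hEinj, card_univ, Fintype.card_fin] at h1
      omega)
  rw [hYc, hcard d, sum_congr rfl fun i _ => hcard i] at h
  exact h

/-- Frankl's theorem for stable families. -/
theorem frankl_stable {d k n : ℕ} {H : Finset (Finset ℕ)}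
    (hH : H ⊆ powersetCard (k + 1) (range n)) (hd : NoM d H) (hS : Stb 0 H)
    (hn : (2 * d + 1) * (k + 1) ≤ n + d) :
    H.card + (n - d).choose (k + 1) ≤ n.choose (k + 1) := by
  classical
  have hdn : d + 1 ≤ n := by nlinarith
  obtain ⟨m, rfl⟩ : ∃ m, n = d + 1 + m := ⟨n - (d + 1), by omega⟩
  set Y := Ico (d + 1) (d + 1 + m) with hY
  have hYc : Y.card = m := by rw [hY, Nat.card_Ico]; omega
  have hYr : Y ⊆ range (d + 1 + m) := by
    intro x hx
    rw [hY, mem_Ico] at hx
    rw [mem_range]
    omega
  set A := Alk d k (d + 1 + m) H with hA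
  set A0 := H.filter fun F => F ⊆ Y with hA0
  have hA0s : A0 ⊆ powersetCard (k + 1) Y := by
    intro F hF
    rw [hA0, mem_filter] at hF
    rw [mem_powersetCard]
    exact ⟨hF.2, (mem_powersetCard.mp (hH hF.1)).2⟩
  -- the outer part
  have h0 : A0.card ≤ d * (A d).card := by
    have h1 := shadow_stable (d := d) (a := d + 1) m k A0 hA0s
      (NoM_mono (filter_subset _ _) hd) (by
        intro F hF j hj i hai hij hi
        rw [hA0, mem_filter] at hF ⊢
        refine ⟨hS F hF.1 j hj i (Nat.zero_le _) hij hi, ?_⟩
        intro x hx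
        rw [mem_insert, mem_erase] at hx
        rcases hx with hx | hx
        · have := mem_Ico.mp (hF.2 hj)
          rw [hx, hY, mem_Ico]
          omega
        · exact hF.2 hx.2)
    refine h1.trans (Nat.mul_le_mul_left _ (card_le_card ?_))
    intro S hS1
    obtain ⟨F, hF, x, hx, rfl⟩ := mem_shadow_iff.mp hS1
    have hFc := mem_powersetCard.mp (hA0s hF)
    rw [hA0, mem_filter] at hF
    rw [hA, mem_Alk]
    refine ⟨⟨(erase_subset _ _).trans hF.2, by rw [card_erase_of_mem hx, hFc.2]; rfl⟩, ?_⟩
    refine hS F hF.1 x hx d (Nat.zero_le _) ?_ (notMem_small hF.2 le_rfl)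
    have := mem_Ico.mp (hF.2 hx)
    omega
  have h1 := cross_links hd hS hn
  rw [Nat.add_sub_cancel_left, ← hA] at h1
  -- the missing sets
  set U := powersetCard (k + 1) (range (d + 1 + m)) with hU
  set T0 := powersetCard (k + 1) Y \ A0 with hT0
  set T : ℕ → Finset (Finset ℕ) := fun i =>
    (powersetCard k Y \ A i).image fun G => insert i G with hT
  have hTcard : ∀ i ∈ range (d + 1), (T i).card + (A i).card = m.choose k := by
    intro i hi
    rw [mem_range] at hi
    rw [hT, card_image_of_injOn]
    · have h2 : A i ⊆ powersetCard k Y := filter_subset _ _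
      have h3 := card_sdiff_add_card_eq_card h2
      rw [h3, card_powersetCard, hYc]
    · intro G hG G' hG' h
      rw [mem_coe, mem_sdiff, mem_powersetCard] at hG hG'
      have h' : insert i G = insert i G' := h
      rw [← erase_insert (notMem_small (i := i) hG.1.1 (by omega)),
        ← erase_insert (notMem_small (i := i) hG'.1.1 (by omega)), h']
  have hT0card : T0.card + A0.card = m.choose (k + 1) := by
    rw [hT0, card_sdiff_add_card_eq_card hA0s, card_powersetCard, hYc]
  have hdisjT : ∀ i ∈ range (d + 1), ∀ j ∈ range (d + 1), i ≠ j → Disjoint (T i) (T j) := by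
    intro i hi j hj hij
    rw [mem_range] at hi hj
    rw [disjoint_left]
    intro E hE hE'
    rw [hT, mem_image] at hE hE'
    obtain ⟨G, hG, rfl⟩ := hE
    obtain ⟨G', hG', h⟩ := hE'
    rw [mem_sdiff, mem_powersetCard] at hG hG'
    have h2 : i ∈ insert j G' := by
      have h3 : insert j G' = insert i G := h
      rw [h3]; exact mem_insert_self _ _
    rw [mem_insert] at h2
    rcases h2 with h2 | h2
    · exact hij h2
    · exact notMem_small hG'.1.1 (by omega) h2
  have hdisj0 : Disjoint T0 ((range (d + 1)).biUnion T) := by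
    rw [disjoint_left]
    intro E hE hE'
    rw [mem_biUnion] at hE'
    obtain ⟨i, hi, hE'⟩ := hE'
    rw [mem_range] at hi
    rw [hT, mem_image] at hE'
    obtain ⟨G, hG, rfl⟩ := hE'
    rw [hT0, mem_sdiff, mem_powersetCard] at hE
    exact notMem_small hE.1.1 (by omega) (mem_insert_self _ _)
  have hsubU : T0 ∪ (range (d + 1)).biUnion T ⊆ U \ H := by
    apply union_subset
    · intro E hE
      rw [hT0, mem_sdiff, mem_powersetCard] at hE
      rw [mem_sdiff, hU, mem_powersetCard]
      refine ⟨⟨hE.1.1.trans hYr, hE.1.2⟩, fun h => hE.2 ?_⟩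
      rw [hA0, mem_filter]
      exact ⟨h, hE.1.1⟩
    · intro E hE
      rw [mem_biUnion] at hE
      obtain ⟨i, hi, hE⟩ := hE
      rw [mem_range] at hi
      rw [hT, mem_image] at hE
      obtain ⟨G, hG, rfl⟩ := hE
      rw [mem_sdiff, mem_powersetCard] at hG
      rw [mem_sdiff, hU, mem_powersetCard]
      refine ⟨⟨?_, ?_⟩, fun h => hG.2 ?_⟩
      · intro x hx
        rw [mem_insert] at hx
        rcases hx with hx | hx
        · rw [hx, mem_range]; omega
        · exact hYr (hG.1.1 hx)
      · rw [card_insert_of_notMem (notMem_small hG.1.1 (by omega)), hG.1.2]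
      · rw [hA, mem_Alk]
        exact ⟨hG.1, h⟩
  have h2 := card_le_card hsubU
  rw [card_union_of_disjoint hdisj0, card_biUnion (fun i hi j hj hij => hdisjT i hi j hj hij)] at h2
  have h3 : (U \ H).card + H.card = (d + 1 + m).choose (k + 1) := by
    rw [card_sdiff_add_card_eq_card hH, hU, card_powersetCard, card_range]
  have h4 : ∑ i ∈ range (d + 1), (T i).card + ∑ i ∈ range (d + 1), (A i).card =
      (d + 1) * m.choose k := by
    rw [← sum_add_distrib, sum_congr rfl hTcard, sum_const, card_range, smul_eq_mul]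
  rw [sum_range_succ (fun i => (A i).card)] at h4
  have h5 : d + 1 + m - d = m + 1 := by omega
  rw [h5, Nat.choose_succ_succ']
  have h6 : (d + 1) * (A d).card = d * (A d).card + (A d).card := by ring
  have h7 : (d + 1) * m.choose k = d * m.choose k + m.choose k := by ring
  omega

/-- Frankl's theorem. -/
theorem frankl {d k n : ℕ} {H : Finset (Finset ℕ)}
    (hH : H ⊆ powersetCard (k + 1) (range n)) (hd : NoM d H)
    (hn : (2 * d + 1) * (k + 1) ≤ n + d) :
    H.card + (n - d).choose (k + 1) ≤ n.choose (k + 1) := by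
  obtain ⟨H', h1, h2, h3, h4⟩ := exists_stable hH hd
  rw [← h2]
  exact frankl_stable h1 h3 h4 hn

/-- Frankl's theorem, for `Fin n`. -/
theorem frankl_fin {d k n : ℕ} {H : Finset (Finset (Fin n))} (hH : ∀ e ∈ H, e.card = k + 1)
    (hd : NoM d H) (hn : (2 * d + 1) * (k + 1) ≤ n + d) :
    H.card + (n - d).choose (k + 1) ≤ n.choose (k + 1) := by
  classical
  set φ : Finset (Fin n) → Finset ℕ := fun e => e.map Fin.valEmbedding with hφ
  have hφi : Function.Injective φ := map_injective _
  have h1 := frankl (d := d) (k := k) (n := n) (H := H.image φ) (by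
    intro E hE
    rw [mem_image] at hE
    obtain ⟨e, he, rfl⟩ := hE
    rw [mem_powersetCard]
    refine ⟨?_, by rw [hφ, card_map, hH e he]⟩
    intro x hx
    rw [hφ, mem_map] at hx
    obtain ⟨y, -, rfl⟩ := hx
    exact mem_range.mpr y.2) (by
    intro M hM hPD
    have h2 : (H.filter fun e => φ e ∈ M).image φ = M := by
      ext E
      rw [mem_image]
      constructor
      · rintro ⟨e, he, rfl⟩
        exact (mem_filter.mp he).2
      · intro hE
        obtain ⟨e, he, rfl⟩ := mem_image.mp (hM hE)
        exact ⟨e, mem_filter.mpr ⟨he, hE⟩, rfl⟩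
    rw [← h2, card_image_of_injective _ hφi]
    apply hd _ (filter_subset _ _)
    intro e he e' he' hne
    rw [mem_filter] at he he'
    have h3 := hPD _ he.2 _ he'.2 (fun h => hne (hφi h))
    rw [hφ] at h3
    exact (disjoint_map _).mp h3) hn
  rwa [card_image_of_injective _ hφi] at h1

end Pool.Agent.Lib.MP_455133_co.EM
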