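import Mathlib
import Pool.Agent.Lib.MP_455133_co.Defs
import Pool.Agent.Lib.MP_455133_co.Blocks
import Pool.Agent.Lib.MP_455133_co.EM.EmcD

/-!
One block: `f n r s t = C(n-t+s, r)` for `n ≥ (2r-1)(t-s) + r` if `(r-1)(t-s) ≤ s - r`, and
`f n r s t < C(n-t+s, r)` for all large `n` otherwise.
-/

namespace Pool.Agent.Lib.MP_455133_co.EM

open Finset

theorem one_choose_le (m k : ℕ) : ∀ d : ℕ, (m + d).choose (k + 1) ≤
    m.choose (k + 1) + d * (m + d - 1).choose k := by
  intro d
  induction d with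
  | zero => simp
  | succ d ih =>
    rw [← Nat.add_assoc, Nat.choose_succ_succ', Nat.add_sub_cancel]
    have h1 : (m + d - 1).choose k ≤ (m + d).choose k := Nat.choose_le_choose k (by omega)
    have h2 : d * (m + d - 1).choose k ≤ d * (m + d).choose k := Nat.mul_le_mul_left _ h1
    have h3 : (d + 1) * (m + d).choose k = d * (m + d).choose k + (m + d).choose k := by ring
    omega

/-! ### One block is optimal -/

theorem card_PD {V : Type*} [DecidableEq V] {r : ℕ} {M : Finset (Finset V)}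
    (hM : ∀ e ∈ M, e.card = r) (hPD : PD M) : (M.biUnion id).card = r * M.card := by
  have h1 : (M.biUnion id).card = ∑ e ∈ M, (id e : Finset V).card :=
    card_biUnion (fun e he e' he' h => hPD e he e' he' h)
  have h2 : ∑ e ∈ M, (id e : Finset V).card = ∑ e ∈ M, r := sum_congr rfl fun e he => hM e he
  rw [h1, h2, sum_const, smul_eq_mul, mul_comm]

/-- The `r`-sets outside the shadow have no `t - s + 1` disjoint members. -/
theorem noM_missing {n r s t : ℕ} (hr : 1 ≤ r) (htn : t ≤ n)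
    (h1 : r * (t - s + 1) ≤ t) {𝒜 : Finset (Finset (Fin n))} (h𝒜 : IsCovering s t 𝒜) :
    NoM (t - s) (powersetCard r (univ : Finset (Fin n)) \ lowerShadow r 𝒜) := by
  classical
  intro M hM hPD
  by_contra hlt
  push Not at hlt
  obtain ⟨M', hM', hM'c⟩ := exists_subset_card_eq (s := M) (n := t - s + 1) hlt
  have hPD' : PD M' := fun e he e' he' h => hPD e (hM' he) e' (hM' he') h
  have hM'H : ∀ e ∈ M', e.card = r ∧ e ∉ lowerShadow r 𝒜 := by
    intro e he
    have h3 := hM (hM' he)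
    rw [mem_sdiff, mem_powersetCard] at h3
    exact ⟨h3.1.2, h3.2⟩
  have hU := card_PD (fun e he => (hM'H e he).1) hPD'
  rw [hM'c] at hU
  obtain ⟨T, hUT, -, hTc⟩ := exists_subsuperset_card_eq
    (subset_univ (M'.biUnion id)) (n := t) (by rw [hU]; exact h1) (by simpa using htn)
  obtain ⟨A, hA, hAT⟩ := h𝒜.2 T hTc
  have hAc := h𝒜.1 A hA
  have h3 : ∀ e ∈ M', ∃ x ∈ e, x ∉ A := by
    intro e he
    by_contra hno
    push Not at hno
    apply (hM'H e he).2
    rw [lowerShadow, mem_filter, mem_powersetCard]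
    exact ⟨⟨subset_univ _, (hM'H e he).1⟩, A, hA, hno⟩
  have : Nonempty (Fin n) := ⟨⟨0, by
    have h7 : 0 < r * (t - s + 1) := Nat.mul_pos hr (by omega)
    omega⟩⟩
  choose! x hx hxA using h3
  have h4 : (M'.image x).card = M'.card := by
    apply card_image_of_injOn
    intro e he e' he' hxx
    by_contra hne
    have h5 := hPD' e he e' he' hne
    have h6 : x e = x e' := hxx
    exact (disjoint_left.mp h5) (hx e he) (h6 ▸ hx e' he')
  have h5 : M'.image x ⊆ T \ A := by
    intro z hz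
    rw [mem_image] at hz
    obtain ⟨e, he, rfl⟩ := hz
    rw [mem_sdiff]
    exact ⟨hUT (mem_biUnion.mpr ⟨e, he, hx e he⟩), hxA e he⟩
  have h6 := card_le_card h5
  rw [h4, hM'c, card_sdiff_of_subset hAT, hTc, hAc] at h6
  omega

/-- Lower bound by one block. -/
theorem one_lower {n r s t : ℕ} (hr : 1 ≤ r) (hst : s ≤ t) (htn : t ≤ n)
    (h1 : r * (t - s + 1) ≤ t) (hn : (2 * (t - s) + 1) * r ≤ n + (t - s)) :
    (n - t + s).choose r ≤ f n r s t := by
  classical
  obtain ⟨k, rfl⟩ : ∃ k, r = k + 1 := ⟨r - 1, by omega⟩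
  obtain ⟨𝒜, h𝒜, hf⟩ := f_spec (n := n) (r := k + 1) hst
  have hsub : lowerShadow (k + 1) 𝒜 ⊆ powersetCard (k + 1) (univ : Finset (Fin n)) :=
    filter_subset _ _
  have h2 := frankl_fin (d := t - s) (k := k) (n := n)
    (H := powersetCard (k + 1) (univ : Finset (Fin n)) \ lowerShadow (k + 1) 𝒜) (by
      intro e he
      rw [mem_sdiff, mem_powersetCard] at he
      exact he.1.2) (noM_missing hr htn h1 h𝒜) hn
  rw [card_sdiff_of_subset hsub, card_powersetCard, card_univ, Fintype.card_fin] at h2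
  have h4 := card_le_card hsub
  rw [card_powersetCard, card_univ, Fintype.card_fin] at h4
  rw [hf]
  have h5 : n - t + s = n - (t - s) := by omega
  rw [h5]
  omega

/-- One block is optimal. -/
theorem one_exact {n r s t : ℕ} (hr : 1 ≤ r) (hst : s ≤ t) (htn : t ≤ n)
    (h1 : (r - 1) * (t - s) + r ≤ s) (hn : (2 * r - 1) * (t - s) + r ≤ n) :
    f n r s t = (n - t + s).choose r := by
  apply le_antisymm
  · have h := f_le_blocks (n := n) (r := r) (s := s) (t := t) (l := 1) (fun _ => n - t + s)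
      (by simp; omega) (by simp; omega) (by omega)
    simpa using h
  · obtain ⟨ρ, rfl⟩ : ∃ ρ, t = s + ρ := ⟨t - s, by omega⟩
    obtain ⟨κ, rfl⟩ : ∃ κ, r = κ + 1 := ⟨r - 1, by omega⟩
    rw [Nat.add_sub_cancel_left, Nat.add_sub_cancel] at h1
    rw [Nat.add_sub_cancel_left, show 2 * (κ + 1) - 1 = 2 * κ + 1 by omega] at hn
    refine one_lower hr hst htn ?_ ?_
    · rw [Nat.add_sub_cancel_left]
      nlinarith
    · rw [Nat.add_sub_cancel_left]
      nlinarith

/-- One block is optimal for all `n`. -/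
theorem one_exact_all {n r s t : ℕ} (hr : 1 ≤ r) (hst : s ≤ t) (htn : t ≤ n)
    (h1 : 2 * (r - 1) * (t - s) + r ≤ s) : f n r s t = (n - t + s).choose r := by
  obtain ⟨ρ, rfl⟩ : ∃ ρ, t = s + ρ := ⟨t - s, by omega⟩
  obtain ⟨κ, rfl⟩ : ∃ κ, r = κ + 1 := ⟨r - 1, by omega⟩
  rw [Nat.add_sub_cancel_left, Nat.add_sub_cancel] at h1
  apply one_exact hr hst htn
  · rw [Nat.add_sub_cancel_left, Nat.add_sub_cancel]
    nlinarith
  · rw [Nat.add_sub_cancel_left, show 2 * (κ + 1) - 1 = 2 * κ + 1 by omega]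
    nlinarith

/-! ### One block is not optimal -/

/-- the residue class modulo `r` -/
def cls (n r i : ℕ) : Finset (Fin n) := univ.filter fun x => (x : ℕ) % r = i

theorem card_cls {n r i : ℕ} (hi : i < r) : n / r ≤ (cls n r i).card := by
  have h1 : ((range (n / r)).image fun j => j * r + i).card = n / r := by
    rw [card_image_of_injective, card_range]
    intro j j' h
    have h' : j * r + i = j' * r + i := h
    have h2 : j * r = j' * r := by omega
    exact Nat.eq_of_mul_eq_mul_right (by omega) h2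
  have h2 : ((range (n / r)).image fun j => j * r + i) ⊆
      (cls n r i).image (fun x : Fin n => (x : ℕ)) := by
    intro x hx
    rw [mem_image] at hx
    obtain ⟨j, hj, rfl⟩ := hx
    rw [mem_range] at hj
    have h3 : j * r + i < n := by
      have h4 : (j + 1) * r ≤ n / r * r := Nat.mul_le_mul_right _ hj
      have h5 := Nat.div_mul_le_self n r
      have h6 : (j + 1) * r = j * r + r := by ring
      omega
    rw [mem_image]
    refine ⟨⟨j * r + i, h3⟩, ?_, rfl⟩
    rw [cls, mem_filter]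
    refine ⟨mem_univ _, ?_⟩
    show (j * r + i) % r = i
    rw [Nat.mul_comm, Nat.mul_add_mod, Nat.mod_eq_of_lt hi]
  have h3 := card_le_card h2
  rw [h1] at h3
  exact h3.trans card_image_le

theorem sum_cls {n r : ℕ} (hr : 0 < r) (T : Finset (Fin n)) :
    ∑ i ∈ range r, (T ∩ cls n r i).card = T.card := by
  have h1 : T = (range r).biUnion fun i => T ∩ cls n r i := by
    ext x
    rw [mem_biUnion]
    constructor
    · intro hx
      refine ⟨(x : ℕ) % r, mem_range.mpr (Nat.mod_lt _ hr), ?_⟩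
      rw [mem_inter, cls, mem_filter]
      exact ⟨hx, mem_univ _, rfl⟩
    · rintro ⟨i, -, hx⟩
      exact (mem_inter.mp hx).1
  conv_rhs => rw [h1]
  rw [card_biUnion]
  intro i _ j _ hij
  refine disjoint_left.mpr fun x hx hx' => ?_
  rw [mem_inter, cls, mem_filter] at hx hx'
  exact hij (hx.2.2.symm.trans hx'.2.2)

/-- the transversal of the classes -/
def tvp {n r : ℕ} (g : Fin r → Fin (n / r)) (i : Fin r) : Fin n :=
  ⟨(g i : ℕ) * r + i, by
    have h4 : ((g i : ℕ) + 1) * r ≤ n / r * r := Nat.mul_le_mul_right _ (g i).2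
    have h5 := Nat.div_mul_le_self n r
    have h6 : ((g i : ℕ) + 1) * r = (g i : ℕ) * r + r := by ring
    have h7 := i.2
    omega⟩

theorem tvp_mod {n r : ℕ} (g : Fin r → Fin (n / r)) (i : Fin r) :
    ((tvp g i : Fin n) : ℕ) % r = i := by
  show ((g i : ℕ) * r + i) % r = i
  rw [Nat.mul_comm, Nat.mul_add_mod, Nat.mod_eq_of_lt i.2]

theorem tvp_inj {n r : ℕ} {g g' : Fin r → Fin (n / r)} {i i' : Fin r}
    (h : tvp g i = tvp g' i') : i = i' ∧ g i = g' i' := by
  have h1 := tvp_mod g i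
  have h2 := tvp_mod g' i'
  rw [h, h2] at h1
  have hii : i = i' := Fin.ext h1.symm
  refine ⟨hii, ?_⟩
  have h3 : ((tvp g i : Fin n) : ℕ) = ((tvp g' i' : Fin n) : ℕ) := by rw [h]
  have h4 : (g i : ℕ) * r + i = (g' i' : ℕ) * r + i' := h3
  rw [hii] at h4 ⊢
  have h5 : (g i' : ℕ) * r = (g' i' : ℕ) * r := by
    rw [hii] at h3
    have h6 : (g i' : ℕ) * r + i' = (g' i' : ℕ) * r + i' := h3
    omega
  exact Fin.ext (Nat.eq_of_mul_eq_mul_right (by have := i'.2; omega) h5)

/-- the upper bound by the complement of a complete `r`-partite family -/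
theorem partite_upper {n r s t : ℕ} (hr : 0 < r) (h : r * (s - 1) < (r - 1) * t) :
    f n r s t + (n / r) ^ r ≤ n.choose r := by
  classical
  set 𝒜 : Finset (Finset (Fin n)) :=
    (powersetCard s univ).filter fun A => ∃ i < r, Disjoint A (cls n r i) with h𝒜
  have hcov : IsCovering s t 𝒜 := by
    constructor
    · intro A hA
      rw [h𝒜, mem_filter, mem_powersetCard] at hA
      exact hA.1.2
    · intro T hT
      have h1 := sum_cls hr T
      have h2 : ∃ i ∈ range r, r * (T ∩ cls n r i).card ≤ t := by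
        by_contra hno
        push Not at hno
        have h3 : ∑ i ∈ range r, t < ∑ i ∈ range r, r * (T ∩ cls n r i).card :=
          sum_lt_sum_of_nonempty ⟨0, mem_range.mpr hr⟩ hno
        rw [sum_const, card_range, smul_eq_mul, ← mul_sum, h1, hT] at h3
        omega
      obtain ⟨i, hi, h3⟩ := h2
      rw [mem_range] at hi
      have h4 : (T \ cls n r i).card + (T ∩ cls n r i).card = t := by
        rw [← hT]; exact card_sdiff_add_card_inter _ _
      have h5 : s ≤ (T \ cls n r i).card := by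
        by_contra hlt
        push Not at hlt
        have h6 : (T \ cls n r i).card ≤ s - 1 := by omega
        have h7 : r * (T \ cls n r i).card ≤ r * (s - 1) := Nat.mul_le_mul_left _ h6
        have h8 : r * (T \ cls n r i).card + r * (T ∩ cls n r i).card = r * t := by
          rw [← Nat.mul_add, h4]
        have h9 : (r - 1) * t + t = r * t := by
          obtain ⟨κ, rfl⟩ : ∃ κ, r = κ + 1 := ⟨r - 1, by omega⟩
          rw [Nat.add_sub_cancel]; ring
        omega
      obtain ⟨A, hA, hAc⟩ := exists_subset_card_eq h5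
      refine ⟨A, ?_, hA.trans sdiff_subset⟩
      rw [h𝒜, mem_filter, mem_powersetCard]
      refine ⟨⟨subset_univ _, hAc⟩, i, hi, ?_⟩
      rw [disjoint_left]
      intro x hx hx2
      exact (mem_sdiff.mp (hA hx)).2 hx2
  have h1 := f_le (r := r) hcov
  set 𝒯 : Finset (Finset (Fin n)) :=
    (univ : Finset (Fin r → Fin (n / r))).image fun g => univ.image (tvp g) with h𝒯
  have h2 : 𝒯.card = (n / r) ^ r := by
    rw [h𝒯, card_image_of_injective]
    · rw [card_univ, Fintype.card_fun, Fintype.card_fin, Fintype.card_fin]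
    · intro g g' hgg
      funext i
      have h3 : tvp g i ∈ univ.image (tvp g') := by
        have h4 : univ.image (tvp g) = univ.image (tvp g') := hgg
        rw [← h4]
        exact mem_image_of_mem _ (mem_univ i)
      rw [mem_image] at h3
      obtain ⟨i', -, h4⟩ := h3
      obtain ⟨h5, h6⟩ := tvp_inj h4
      rw [h5] at h6
      exact h6.symm
  have h3 : Disjoint (lowerShadow r 𝒜) 𝒯 := by
    rw [disjoint_left]
    intro R hR hR2
    rw [lowerShadow, mem_filter] at hR
    obtain ⟨-, A, hA, hRA⟩ := hR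
    rw [h𝒜, mem_filter] at hA
    obtain ⟨-, i, hi, hAi⟩ := hA
    rw [h𝒯, mem_image] at hR2
    obtain ⟨g, -, rfl⟩ := hR2
    refine (disjoint_left.mp hAi) (hRA (mem_image_of_mem _ (mem_univ (⟨i, hi⟩ : Fin r)))) ?_
    rw [cls, mem_filter]
    exact ⟨mem_univ _, tvp_mod g ⟨i, hi⟩⟩
  have h4 : lowerShadow r 𝒜 ∪ 𝒯 ⊆ powersetCard r univ := by
    apply union_subset (filter_subset _ _)
    intro R hR
    rw [h𝒯, mem_image] at hR
    obtain ⟨g, -, rfl⟩ := hR
    rw [mem_powersetCard]
    refine ⟨subset_univ _, ?_⟩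
    rw [card_image_of_injective, card_univ, Fintype.card_fin]
    intro i i' hii
    exact (tvp_inj hii).1
  have h5 := card_le_card h4
  rw [card_union_of_disjoint h3, card_powersetCard, card_univ, Fintype.card_fin, h2] at h5
  omega

/-- One block is not optimal for large `n`. -/
theorem one_not {n r s t : ℕ} (hr : 2 ≤ r) (hst : s ≤ t) (htn : t ≤ n)
    (hs : 1 ≤ s) (h0 : s < (r - 1) * (t - s) + r) (hn : (t - s) * (2 * r) ^ r < n)
    (hrn : r ≤ n) : f n r s t < (n - t + s).choose r := by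
  have h : r * (s - 1) < (r - 1) * t := by
    obtain ⟨ρ, rfl⟩ : ∃ ρ, t = s + ρ := ⟨t - s, by omega⟩
    obtain ⟨κ, rfl⟩ : ∃ κ, r = κ + 1 := ⟨r - 1, by omega⟩
    obtain ⟨σ, rfl⟩ : ∃ σ, s = σ + 1 := ⟨s - 1, by omega⟩
    rw [Nat.add_sub_cancel_left, Nat.add_sub_cancel] at h0
    rw [Nat.add_sub_cancel, Nat.add_sub_cancel]
    nlinarith
  have h1 := partite_upper (n := n) (by omega) h
  obtain ⟨κ, rfl⟩ : ∃ κ, r = κ + 1 := ⟨r - 1, by omega⟩
  have h2 := one_choose_le (n - (t - s)) κ (t - s)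
  rw [Nat.sub_add_cancel (by omega)] at h2
  have h3 : (n - 1).choose κ ≤ n ^ κ :=
    (Nat.choose_le_pow (n - 1) κ).trans (Nat.pow_le_pow_left (by omega) κ)
  have h4 : n - (t - s) = n - t + s := by omega
  rw [h4] at h2
  have h5 : (t - s) * (n - 1).choose κ ≤ (t - s) * n ^ κ := Nat.mul_le_mul_left _ h3
  have h6 : 1 ≤ n / (κ + 1) := by
    rw [Nat.le_div_iff_mul_le (by omega)]; omega
  have h7 : n ≤ 2 * (κ + 1) * (n / (κ + 1)) := by
    have h8 := Nat.lt_mul_div_succ n (show 0 < κ + 1 by omega)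
    have h9 : (κ + 1) * (n / (κ + 1) + 1) = (κ + 1) * (n / (κ + 1)) + (κ + 1) := by ring
    have h10 : (κ + 1) * 1 ≤ (κ + 1) * (n / (κ + 1)) := Nat.mul_le_mul_left _ h6
    have h11 : 2 * (κ + 1) * (n / (κ + 1)) = 2 * ((κ + 1) * (n / (κ + 1))) := by ring
    omega
  have h8 : n ^ (κ + 1) ≤ (2 * (κ + 1)) ^ (κ + 1) * (n / (κ + 1)) ^ (κ + 1) := by
    rw [← Nat.mul_pow]
    exact Nat.pow_le_pow_left h7 _
  have h9 : (t - s) * n ^ κ < (n / (κ + 1)) ^ (κ + 1) := by
    have hp : 0 < (2 * (κ + 1)) ^ (κ + 1) := by positivity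
    have hn0 : 0 < n ^ κ := Nat.pow_pos (by omega)
    have h10 : ((t - s) * (2 * (κ + 1)) ^ (κ + 1)) * n ^ κ < n * n ^ κ :=
      Nat.mul_lt_mul_of_pos_right hn hn0
    have h11 : n * n ^ κ = n ^ (κ + 1) := by ring
    rw [h11] at h10
    have h12 := lt_of_lt_of_le h10 h8
    have h13 : (2 * (κ + 1)) ^ (κ + 1) * ((t - s) * n ^ κ) <
        (2 * (κ + 1)) ^ (κ + 1) * (n / (κ + 1)) ^ (κ + 1) := by
      refine lt_of_eq_of_lt ?_ h12
      ring
    exact Nat.lt_of_mul_lt_mul_left h13
  omega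

end Pool.Agent.Lib.MP_455133_co.EM
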